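import Mathlib

/-! Barycentric coordinates of a simplex with `N + 1` vertices in `ℝ^N`. -/

set_option autoImplicit false

namespace Pool.Agent.Y954.PB

open Set Topology Metric
open scoped InnerProductSpace

variable {N : ℕ}

/-- barycentric coordinates and the faces of a simplex -/
theorem coords (a : Fin (N + 1) → EuclideanSpace ℝ (Fin N)) (h : AffineIndependent ℝ a) :
    ∃ c : Fin (N + 1) → EuclideanSpace ℝ (Fin N) →ᵃ[ℝ] ℝ,
      (∀ i j, c i (a j) = if i = j then 1 else 0) ∧ (∀ i, Continuous (c i)) ∧
      ∀ (I : Set (Fin (N + 1))) (y : EuclideanSpace ℝ (Fin N)), y ∈ convexHull ℝ (a '' I) ↔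
        (∀ i, 0 ≤ c i y) ∧ ∀ i, i ∉ I → c i y = 0 := by
  classical
  have htop : affineSpan ℝ (range a) = ⊤ := by
    rw [h.affineSpan_eq_top_iff_card_eq_finrank_add_one]
    simp
  obtain ⟨b, hb⟩ : ∃ b : AffineBasis (Fin (N + 1)) ℝ (EuclideanSpace ℝ (Fin N)), ∀ i, b i = a i :=
    ⟨⟨a, h, htop⟩, fun i => rfl⟩
  have hc : ∀ i j, b.coord i (a j) = if i = j then 1 else 0 := by
    intro i j
    rw [← hb j, b.coord_apply]
  refine ⟨fun i => b.coord i, hc, fun i => (b.coord i).continuous_of_finiteDimensional, ?_⟩
  intro I y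
  constructor
  · intro hy
    have hsub : convexHull ℝ (a '' I) ⊆
        ((⋂ i, {z | 0 ≤ b.coord i z}) ∩ ⋂ i, ⋂ (_ : i ∉ I), {z | b.coord i z = 0}) := by
      apply convexHull_min
      · rintro _ ⟨j, hj, rfl⟩
        refine ⟨?_, ?_⟩
        · rw [mem_iInter]
          intro i
          show 0 ≤ b.coord i (a j)
          rw [hc]
          split_ifs <;> norm_num
        · rw [mem_iInter]
          intro i
          rw [mem_iInter]
          intro hi
          show b.coord i (a j) = 0
          rw [hc, if_neg]
          rintro rfl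
          exact hi hj
      · refine Convex.inter ?_ ?_
        · exact convex_iInter fun i => (convex_Ici (0 : ℝ)).affine_preimage (b.coord i)
        · exact convex_iInter fun i => convex_iInter fun _ =>
            (convex_singleton (0 : ℝ)).affine_preimage (b.coord i)
    have h1 := hsub hy
    refine ⟨fun i => ?_, fun i hi => ?_⟩
    · exact (mem_iInter.1 h1.1 i)
    · exact (mem_iInter.1 (mem_iInter.1 h1.2 i) hi)
  · rintro ⟨h1, h2⟩
    have hsum : ∑ i, b.coord i y = 1 := b.sum_coord_apply_eq_one y
    have hlin : ∑ i, b.coord i y • b i = y := b.linear_combination_coord_eq_self y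
    have hsum' : ∑ i ∈ Finset.univ.filter (fun i => i ∈ I), b.coord i y = 1 := by
      rw [← hsum, Finset.sum_filter]
      apply Finset.sum_congr rfl
      intro i _
      split_ifs with hi
      · rfl
      · rw [h2 i hi]
    have hlin' : ∑ i ∈ Finset.univ.filter (fun i => i ∈ I), b.coord i y • a i = y := by
      conv_rhs => rw [← hlin]
      rw [Finset.sum_filter]
      apply Finset.sum_congr rfl
      intro i _
      split_ifs with hi
      · rw [hb]
      · rw [h2 i hi, zero_smul]
    have key := (convex_convexHull ℝ (a '' I)).sum_mem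
      (t := Finset.univ.filter (fun i => i ∈ I)) (w := fun i => b.coord i y) (z := a)
      (fun i _ => h1 i) hsum' (fun i hi => subset_convexHull ℝ _ ⟨i, (Finset.mem_filter.1 hi).2, rfl⟩)
    rw [hlin'] at key
    exact key

end Pool.Agent.Y954.PB
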