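import Pool.Agent.Y217.PB.Stm
import Pool.Agent.Y954.PB.Simp

/-! PB-S1: the hull of a tight substantial surface consisting of faces of a simplex. -/

set_option autoImplicit false

universe u

namespace Pool.Agent.Y954.PB

open Set Topology Metric
open Pool.Agent.Helper775.Surf Pool.Agent.Helper775.Clo Pool.Agent.Y217.PB
open scoped InnerProductSpace

theorem convHull (hF : JSimplexFace) : JConvHull.{u} := by
  intro M _ _ _ _ N f S hN a T ha hr
  obtain ⟨hext, hface⟩ := hF N a ha
  obtain ⟨c, c1, c2, c3⟩ := coords a ha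
  have h1 : range f ⊆ convexHull ℝ (range a) := by
    rw [hr]
    exact iUnion₂_subset fun t _ => convexHull_mono (image_subset_range _ _)
  have h2 : ∀ i, ∃ t ∈ T, i ∈ t := by
    intro i
    by_contra hcon
    push Not at hcon
    obtain ⟨n, m, hle, heq⟩ := hface {j | j ≠ i}
    have h3 : range f ⊆ convexHull ℝ (a '' {j | j ≠ i}) := by
      rw [hr]
      refine iUnion₂_subset fun t ht => convexHull_mono (image_mono ?_)
      intro j hj hji
      subst hji
      exact hcon t ht hj
    have hn : n ≠ 0 := by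
      rintro rfl
      obtain ⟨j, hj⟩ : ∃ j : Fin (N + 1), j ≠ i := by
        haveI : Nontrivial (Fin (N + 1)) := Fin.nontrivial_iff_two_le.2 (by omega)
        exact exists_ne i
      have hja : a j ∈ convexHull ℝ (a '' {j | j ≠ i}) := subset_convexHull ℝ _ ⟨j, hj, rfl⟩
      rw [← heq] at hja
      have hm : (0 : ℝ) = m := by
        rw [← hja.2, inner_zero_left]
      have hia : a i ∈ {x | x ∈ convexHull ℝ (range a) ∧
          ⟪(0 : EuclideanSpace ℝ (Fin N)), x⟫_ℝ = m} :=
        ⟨subset_convexHull ℝ _ ⟨i, rfl⟩, by rw [inner_zero_left, hm]⟩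
      rw [heq, c3] at hia
      have := hia.2 i (fun h => h rfl)
      rw [c1, if_pos rfl] at this
      exact one_ne_zero this
    obtain ⟨x, hx⟩ := S.sub n m hn
    have h4 := h3 (mem_range_self x)
    rw [← heq] at h4
    exact hx h4.2
  have h5 : Hul f = convexHull ℝ (range a) := by
    apply Subset.antisymm
    · exact convexHull_min h1 (convex_convexHull ℝ _)
    · apply convexHull_mono
      rintro _ ⟨i, rfl⟩
      obtain ⟨t, ht, hit⟩ := h2 i
      rw [hr]
      exact mem_iUnion₂.2 ⟨t, ht, subset_convexHull ℝ _ ⟨i, hit, rfl⟩⟩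
  exact ⟨h5, by rw [h5]; exact hext⟩

end Pool.Agent.Y954.PB
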