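import Pool.Agent.Y217.PB.Stm
import Pool.Agent.Y954.PB.Simp

/-! PB-S2: the components of the complement of the graph, if the surface consists of triangles of a
simplex. -/

set_option autoImplicit false

universe u

namespace Pool.Agent.Y954.PB

open Set Topology Metric
open Pool.Agent.Helper775.Surf Pool.Agent.Helper775.Clo Pool.Agent.Y217.PB
open scoped InnerProductSpace

/-- affine functions on combinations -/
theorem aff_comb {N : ℕ} (g : EuclideanSpace ℝ (Fin N) →ᵃ[ℝ] ℝ) (x y : EuclideanSpace ℝ (Fin N))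
    (α β : ℝ) (h : α + β = 1) : g (α • x + β • y) = α * g x + β * g y := by
  have := Convex.combo_affine_apply (f := g) (x := x) (y := y) h
  simpa using this

/-- the open face with the index set `t` -/
def OF {N : ℕ} (c : Fin (N + 1) → EuclideanSpace ℝ (Fin N) →ᵃ[ℝ] ℝ) (t : Finset (Fin (N + 1))) :
    Set (EuclideanSpace ℝ (Fin N)) := {y | (∀ i ∈ t, 0 < c i y) ∧ ∀ i, i ∉ t → c i y = 0}

theorem of_convex {N : ℕ} (c : Fin (N + 1) → EuclideanSpace ℝ (Fin N) →ᵃ[ℝ] ℝ)
    (t : Finset (Fin (N + 1))) : Convex ℝ (OF c t) := by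
  intro x hx y hy α β hα hβ hαβ
  refine ⟨fun i hi => ?_, fun i hi => ?_⟩
  · rw [aff_comb _ _ _ _ _ hαβ]
    have h1 := hx.1 i hi
    have h2 := hy.1 i hi
    rcases hα.eq_or_lt with h | h
    · have : β = 1 := by linarith
      rw [← h, this]
      linarith
    · have h3 := mul_pos h h1
      have h4 := mul_nonneg hβ h2.le
      linarith
  · rw [aff_comb _ _ _ _ _ hαβ, hx.2 i hi, hy.2 i hi]
    ring

/-- a point of the open triangle -/
theorem of_nonempty {N : ℕ} (a : Fin (N + 1) → EuclideanSpace ℝ (Fin N))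
    (c : Fin (N + 1) → EuclideanSpace ℝ (Fin N) →ᵃ[ℝ] ℝ)
    (c1 : ∀ i j, c i (a j) = if i = j then 1 else 0) (i j k : Fin (N + 1)) (hij : i ≠ j)
    (hik : i ≠ k) (hjk : j ≠ k) : (OF c {i, j, k}).Nonempty := by
  refine ⟨(2 / 3 : ℝ) • ((1 / 2 : ℝ) • a i + (1 / 2 : ℝ) • a j) + (1 / 3 : ℝ) • a k, ?_, ?_⟩
  · intro l hl
    rw [aff_comb _ _ _ _ _ (by norm_num), aff_comb _ _ _ _ _ (by norm_num), c1, c1, c1]
    rw [Finset.mem_insert, Finset.mem_insert, Finset.mem_singleton] at hl
    rcases hl with rfl | rfl | rfl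
    · rw [if_pos rfl, if_neg hij, if_neg hik]; norm_num
    · rw [if_pos rfl, if_neg hij.symm, if_neg hjk]; norm_num
    · rw [if_pos rfl, if_neg hik.symm, if_neg hjk.symm]; norm_num
  · intro l hl
    rw [aff_comb _ _ _ _ _ (by norm_num), aff_comb _ _ _ _ _ (by norm_num), c1, c1, c1]
    rw [Finset.mem_insert, Finset.mem_insert, Finset.mem_singleton, not_or, not_or] at hl
    rw [if_neg hl.1, if_neg hl.2.1, if_neg hl.2.2]
    norm_num

/-- the open triangle is dense in the triangle -/
theorem of_closure {N : ℕ} (a : Fin (N + 1) → EuclideanSpace ℝ (Fin N))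
    (c : Fin (N + 1) → EuclideanSpace ℝ (Fin N) →ᵃ[ℝ] ℝ)
    (c3 : ∀ (I : Set (Fin (N + 1))) (y : EuclideanSpace ℝ (Fin N)), y ∈ convexHull ℝ (a '' I) ↔
        (∀ i, 0 ≤ c i y) ∧ ∀ i, i ∉ I → c i y = 0) (t : Finset (Fin (N + 1)))
    (hne : (OF c t).Nonempty) :
    closure (OF c t) = convexHull ℝ (a '' (t : Set (Fin (N + 1)))) := by
  apply Subset.antisymm
  · apply closure_minimal
    · intro y hy
      rw [c3]
      refine ⟨fun i => ?_, fun i hi => hy.2 i hi⟩
      by_cases hi : i ∈ t
      · exact (hy.1 i hi).le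
      · exact (hy.2 i hi).ge
    · exact (Set.Finite.isCompact_convexHull ℝ ((Set.toFinite _).image a)).isClosed
  · intro y hy
    rw [c3] at hy
    obtain ⟨z, hz⟩ := hne
    have h1 : openSegment ℝ z y ⊆ OF c t := by
      rintro w ⟨α, β, hα, hβ, hαβ, rfl⟩
      refine ⟨fun i hi => ?_, fun i hi => ?_⟩
      · rw [aff_comb _ _ _ _ _ hαβ]
        have h3 := mul_pos hα (hz.1 i hi)
        have h4 := mul_nonneg hβ.le (hy.1 i)
        linarith
      · rw [aff_comb _ _ _ _ _ hαβ, hz.2 i hi, hy.2 i hi]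
        ring
    exact closure_mono h1 (segment_subset_closure_openSegment (right_mem_segment ℝ z y))

/-- the preimage of a connected subset of the image -/
theorem pre_conn {M : Type u} [TopologicalSpace M] {N : ℕ} {f : M → EuclideanSpace ℝ (Fin N)}
    (he : IsClosedEmbedding f) {X : Set (EuclideanSpace ℝ (Fin N))} (hX : IsPreconnected X)
    (hr : X ⊆ range f) : IsPreconnected (f ⁻¹' X) :=
  hX.preimage_of_isClosedMap he.injective he.isClosedMap hr

theorem convComps (hF : JSimplexFace) (hH : JConvHull.{u}) (hT : JTriAcyc.{u}) (hI : JInjG.{u})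
    (hL : JLoc.{u}) (hA : JArc.{u}) : JConvComps.{u} := by
  intro M _ _ _ _ _ _ N f S hN hinj a T ha hcard hr Γ hΓ
  obtain ⟨hHul, hExt⟩ := hH M N f S (by omega) a T ha hr
  obtain ⟨hext, hface⟩ := hF N a ha
  obtain ⟨c, c1, c2, c3⟩ := coords a ha
  obtain ⟨-, -, hI3⟩ := hI M N f S Γ hΓ
  have hemb : IsClosedEmbedding f := S.cont.isClosedEmbedding hinj
  -- the image
  have hmem : ∀ x, ∃ t ∈ T, (∀ i, 0 ≤ c i (f x)) ∧ ∀ i, i ∉ t → c i (f x) = 0 := by
    intro x
    have hx : f x ∈ range f := mem_range_self x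
    rw [hr] at hx
    obtain ⟨t, ht, hxt⟩ := mem_iUnion₂.1 hx
    rw [c3] at hxt
    exact ⟨t, ht, hxt⟩
  have hsub : ∀ t ∈ T, convexHull ℝ (a '' (t : Set (Fin (N + 1)))) ⊆ range f := by
    intro t ht
    rw [hr]
    exact subset_iUnion₂_of_subset t ht Subset.rfl
  have hnn : ∀ x i, 0 ≤ c i (f x) := by
    intro x
    obtain ⟨t, _, h, _⟩ := hmem x
    exact h
  have hOF : ∀ t : Finset (Fin (N + 1)), OF c t ⊆ convexHull ℝ (a '' (t : Set (Fin (N + 1)))) := by
    intro t y hy
    rw [c3]
    refine ⟨fun i => ?_, fun i hi => hy.2 i hi⟩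
    by_cases hi : i ∈ t
    · exact (hy.1 i hi).le
    · exact (hy.2 i hi).ge
  -- segments
  have hseg : ∀ i j, segment ℝ (a i) (a j) = convexHull ℝ (a '' ({i, j} : Set (Fin (N + 1)))) := by
    intro i j
    rw [image_pair, convexHull_pair]
  have hsegm : ∀ i j y, y ∈ segment ℝ (a i) (a j) ↔
      (∀ l, 0 ≤ c l y) ∧ ∀ l, l ≠ i → l ≠ j → c l y = 0 := by
    intro i j y
    rw [hseg, c3]
    refine and_congr Iff.rfl (forall_congr' fun l => ?_)
    rw [mem_insert_iff, mem_singleton_iff, not_or]
    exact ⟨fun h h1 h2 => h ⟨h1, h2⟩, fun h h1 => h h1.1 h1.2⟩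
  have hvert : ∀ i y, (∀ l, 0 ≤ c l y) → (∀ l, l ≠ i → c l y = 0) → y = a i := by
    intro i y h1 h2
    have : y ∈ convexHull ℝ (a '' ({i} : Set (Fin (N + 1)))) := by
      rw [c3]
      exact ⟨h1, fun l hl => h2 l hl⟩
    rw [image_singleton, convexHull_singleton] at this
    exact this
  have hinja : ∀ i j, a i = a j → i = j := by
    intro i j hij
    by_contra hne
    have h1 := c1 i i
    rw [hij, c1, if_pos rfl, if_neg hne] at h1
    exact zero_ne_one h1
  have hEdge : ∀ i j, i ≠ j → Edge f (a i) (a j) := by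
    intro i j hij
    obtain ⟨n, m, hle, heq⟩ := hface {i, j}
    refine ⟨fun h => hij (hinja i j h), n, m, ?_, ?_⟩
    · rw [hHul]
      exact hle
    · rw [hHul, heq, hseg]
  have hEdge' : ∀ p q, Edge f p q → ∃ i j, i ≠ j ∧ p = a i ∧ q = a j := by
    intro p q h
    have h1 := edge_ext h
    have h2 := edge_ext (Edge.symm h)
    rw [hExt] at h1 h2
    obtain ⟨i, rfl⟩ := h1
    obtain ⟨j, rfl⟩ := h2
    refine ⟨i, j, ?_, rfl, rfl⟩
    rintro rfl
    exact h.1 rfl
  have hpts : ∀ x, x ∈ Γ.pts ↔ ∃ i j, i ≠ j ∧ ∀ l, l ≠ i → l ≠ j → c l (f x) = 0 := by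
    intro x
    rw [hI3]
    constructor
    · rintro (h | ⟨p, q, hpq, h⟩)
      · rw [hExt] at h
        obtain ⟨i, hi⟩ := h
        obtain ⟨j, hj⟩ : ∃ j : Fin (N + 1), j ≠ i := by
          haveI : Nontrivial (Fin (N + 1)) := Fin.nontrivial_iff_two_le.2 (by omega)
          exact exists_ne i
        refine ⟨i, j, hj.symm, fun l hl _ => ?_⟩
        rw [← hi, c1, if_neg hl]
      · obtain ⟨i, j, hij, rfl, rfl⟩ := hEdge' p q hpq
        exact ⟨i, j, hij, ((hsegm i j _).1 h).2⟩
    · rintro ⟨i, j, hij, h⟩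
      right
      exact ⟨a i, a j, hEdge i j hij, (hsegm i j _).2 ⟨hnn x, h⟩⟩
  -- points off the graph
  have hpos : ∀ x, x ∉ Γ.pts → ∀ t ∈ T, (∀ i, i ∉ t → c i (f x) = 0) → ∀ i ∈ t, 0 < c i (f x) := by
    intro x hx t ht h0 i hi
    rcases (hnn x i).eq_or_lt with h | h
    · exfalso
      apply hx
      rw [hpts]
      have h2 : (t.erase i).card = 2 := by
        rw [Finset.card_erase_of_mem hi, hcard t ht]
      obtain ⟨p, q, hpq, he⟩ := Finset.card_eq_two.1 h2
      refine ⟨p, q, hpq, fun l hlp hlq => ?_⟩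
      by_cases hl : l ∈ t
      · by_cases hli : l = i
        · rw [hli, ← h]
        · exfalso
          have : l ∈ t.erase i := Finset.mem_erase.2 ⟨hli, hl⟩
          rw [he, Finset.mem_insert, Finset.mem_singleton] at this
          rcases this with h' | h'
          · exact hlp h'
          · exact hlq h'
      · exact h0 l hl
    · exact h
  have hnpts : ∀ x, ∀ t ∈ T, (∀ i ∈ t, 0 < c i (f x)) → x ∉ Γ.pts := by
    intro x t ht h hx
    rw [hpts] at hx
    obtain ⟨i, j, hij, h0⟩ := hx
    have h1 : t ⊆ {i, j} := by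
      intro l hl
      rw [Finset.mem_insert, Finset.mem_singleton]
      by_contra hcon
      rw [not_or] at hcon
      have h2 := h l hl
      rw [h0 l hcon.1 hcon.2] at h2
      exact lt_irrefl _ h2
    have h2 := Finset.card_le_card h1
    rw [hcard t ht, Finset.card_pair hij] at h2
    omega
  -- the triangle of a point is unique
  have huniq : ∀ x, ∀ t ∈ T, ∀ t' ∈ T, (∀ i ∈ t, 0 < c i (f x)) → (∀ i, i ∉ t' → c i (f x) = 0) →
      t = t' := by
    intro x t ht t' ht' h h'
    apply Finset.eq_of_subset_of_card_le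
    · intro i hi
      by_contra hcon
      have h2 := h i hi
      rw [h' i hcon] at h2
      exact lt_irrefl _ h2
    · rw [hcard t ht, hcard t' ht']
  have hUr : ∀ t ∈ T, OF c t ⊆ range f := fun t ht => (hOF t).trans (hsub t ht)
  have hUne : ∀ t ∈ T, (OF c t).Nonempty := by
    intro t ht
    obtain ⟨i, j, k, hij, hik, hjk, rfl⟩ := Finset.card_eq_three.1 (hcard t ht)
    exact of_nonempty a c c1 i j k hij hik hjk
  have hcomp : ∀ t ∈ T, ∀ x, f x ∈ OF c t → connectedComponentIn Γ.ptsᶜ x = f ⁻¹' OF c t := by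
    intro t ht x hx
    have hxn : x ∈ Γ.ptsᶜ := hnpts x t ht hx.1
    apply Subset.antisymm
    · have hV : IsOpen {z | ∀ i ∈ t, 0 < c i (f z)} := by
        have : {z | ∀ i ∈ t, 0 < c i (f z)} = ⋂ i ∈ t, {z | 0 < c i (f z)} := by
          ext z
          simp
        rw [this]
        exact isOpen_biInter_finset fun i _ => isOpen_lt continuous_const ((c2 i).comp S.cont)
      have hV' : IsOpen {z | ∃ i, i ∉ t ∧ c i (f z) ≠ 0} := by
        have : {z | ∃ i, i ∉ t ∧ c i (f z) ≠ 0} = ⋃ i, ⋃ (_ : i ∉ t), {z | c i (f z) ≠ 0} := by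
          ext z
          simp
        rw [this]
        exact isOpen_iUnion fun i => isOpen_iUnion fun _ =>
          isOpen_ne_fun ((c2 i).comp S.cont) continuous_const
      have hd : Disjoint {z | ∀ i ∈ t, 0 < c i (f z)} {z | ∃ i, i ∉ t ∧ c i (f z) ≠ 0} := by
        rw [Set.disjoint_left]
        rintro z hz ⟨i, hi, hi'⟩
        obtain ⟨t', ht', _, h0⟩ := hmem z
        have := huniq z t ht t' ht' hz h0
        subst this
        exact hi' (h0 i hi)
      have hcov : connectedComponentIn Γ.ptsᶜ x ⊆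
          {z | ∀ i ∈ t, 0 < c i (f z)} ∪ {z | ∃ i, i ∉ t ∧ c i (f z) ≠ 0} := by
        intro z hz
        have hzn : z ∉ Γ.pts := connectedComponentIn_subset _ _ hz
        by_cases h : ∃ i, i ∉ t ∧ c i (f z) ≠ 0
        · exact Or.inr h
        · push Not at h
          exact Or.inl (hpos z hzn t ht h)
      have hsubV := isPreconnected_connectedComponentIn.subset_left_of_subset_union hV hV' hd hcov
        ⟨x, mem_connectedComponentIn hxn, hx.1⟩
      intro z hz
      have hz1 := hsubV hz
      refine ⟨hz1, fun i hi => ?_⟩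
      by_contra hcon
      exact Set.disjoint_left.1 hd hz1 ⟨i, hi, hcon⟩
    · apply (pre_conn hemb (of_convex c t).isPreconnected (hUr t ht)).subset_connectedComponentIn hx
      intro z hz
      exact hnpts z t ht hz.1
  have hcomps : comps Γ.pts = (fun t => f ⁻¹' OF c t) '' T := by
    ext C
    constructor
    · rintro ⟨x, hx, rfl⟩
      obtain ⟨t, ht, _, h0⟩ := hmem x
      refine ⟨t, ht, ?_⟩
      exact (hcomp t ht x ⟨hpos x hx t ht h0, h0⟩).symm
    · rintro ⟨t, ht, rfl⟩
      obtain ⟨y, hy⟩ := hUne t ht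
      obtain ⟨x, rfl⟩ := hUr t ht hy
      exact ⟨x, hnpts x t ht hy.1, (hcomp t ht x hy).symm⟩
  have hcl : ∀ t ∈ T, closure (f ⁻¹' OF c t) = {x | f x ∈ convexHull ℝ (a '' (t : Set (Fin (N + 1))))} := by
    intro t ht
    rw [hemb.isInducing.closure_eq_preimage_closure_image, image_preimage_eq_of_subset (hUr t ht),
      of_closure a c c3 t (hUne t ht)]
    rfl
  have hclm : ∀ t ∈ T, ∀ x, x ∈ closure (f ⁻¹' OF c t) ↔ ∀ i, i ∉ t → c i (f x) = 0 := by
    intro t ht x
    rw [hcl t ht, mem_setOf_eq, c3]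
    exact ⟨fun h => h.2, fun h => ⟨hnn x, h⟩⟩
  -- edges of the graph
  have hk : ∀ k : EdgeT f, ∃ p q, p ≠ q ∧ k.1 = segment ℝ (a p) (a q) ∧ f (Γ.p0 k) = a p ∧
      f (Γ.p1 k) = a q := by
    intro k
    obtain ⟨p, q, hpq, h1, h2⟩ := hEdge' _ _ (hΓ.edge k)
    refine ⟨p, q, hpq, ?_, ?_, ?_⟩
    · rw [hΓ.seg k, h1, h2]
    · rw [hΓ.h0, h1]
    · rw [hΓ.h1, h2]
  have hopn : ∀ (k : EdgeT f) p q, p ≠ q → k.1 = segment ℝ (a p) (a q) → f (Γ.p0 k) = a p →
      f (Γ.p1 k) = a q → ∀ x ∈ Γ.opn k, c p (f x) ≠ 0 ∧ c q (f x) ≠ 0 ∧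
        ∀ l, l ≠ p → l ≠ q → c l (f x) = 0 := by
    intro k p q hpq hs h0 h1 x hx
    have hxA : x ∈ Γ.A k := hx.1
    rw [hΓ.hA k, mem_setOf_eq, hs, hsegm] at hxA
    have hx0 : x ≠ Γ.p0 k := fun h => hx.2 (Or.inl h)
    have hx1 : x ≠ Γ.p1 k := fun h => hx.2 (Or.inr h)
    refine ⟨fun h => ?_, fun h => ?_, hxA.2⟩
    · apply hx1
      apply hinj
      rw [h1]
      apply hvert q _ hxA.1
      intro l hl
      by_cases hlp : l = p
      · rw [hlp, h]
      · exact hxA.2 l hlp hl
    · apply hx0
      apply hinj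
      rw [h0]
      apply hvert p _ hxA.1
      intro l hl
      by_cases hlq : l = q
      · rw [hlq, h]
      · exact hxA.2 l hl hlq
  refine ⟨?_, ?_, ?_⟩
  · rw [hcomps]
    exact (Set.toFinite T).image _
  · intro C hC
    rw [hcomps] at hC
    obtain ⟨t, ht, rfl⟩ := hC
    simp only
    refine ⟨?_, ?_, ?_⟩
    · rw [hcl t ht]
      refine hT M N f S.cont hinj _ ?_ (convex_convexHull ℝ _) ?_ (hsub t ht)
      · exact Set.Finite.isCompact_convexHull ℝ ((Set.toFinite _).image a)
      · have h1 : vectorSpan ℝ (convexHull ℝ (a '' (t : Set (Fin (N + 1))))) =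
            vectorSpan ℝ (a '' (t : Set (Fin (N + 1)))) := by
          rw [← direction_affineSpan, affineSpan_convexHull, direction_affineSpan]
        classical
        rw [h1, ← Finset.coe_image]
        exact finrank_vectorSpan_image_finset_le ℝ a t (n := 2) (by rw [hcard t ht])
    · obtain ⟨i, j, k, hij, hik, hjk, rfl⟩ := Finset.card_eq_three.1 (hcard t ht)
      have h1 : closure (f ⁻¹' OF c {i, j, k}) ∩ Γ.pts =
          f ⁻¹' ((segment ℝ (a i) (a j) ∪ segment ℝ (a j) (a k)) ∪ segment ℝ (a k) (a i)) := by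
        ext x
        rw [mem_inter_iff, hclm _ ht, hpts, mem_preimage, mem_union, mem_union, hsegm, hsegm, hsegm]
        constructor
        · rintro ⟨h, p, q, hpq, h0⟩
          have h2 : ∀ l, l ≠ i → l ≠ j → l ≠ k → c l (f x) = 0 := by
            intro l hi hj hk
            apply h l
            simp [hi, hj, hk]
          by_cases hi : i ≠ p ∧ i ≠ q
          · left; right
            refine ⟨hnn x, fun l hl hl' => ?_⟩
            by_cases hli : l = i
            · rw [hli]; exact h0 i hi.1 hi.2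
            · exact h2 l hli hl hl'
          · by_cases hj : j ≠ p ∧ j ≠ q
            · right
              refine ⟨hnn x, fun l hl hl' => ?_⟩
              by_cases hli : l = j
              · rw [hli]; exact h0 j hj.1 hj.2
              · exact h2 l hl' hli hl
            · left; left
              have hk' : k ≠ p ∧ k ≠ q := by
                constructor
                · rintro rfl
                  rw [not_and_or, not_not, not_not] at hi hj
                  rcases hi with hi | hi
                  · exact hik hi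
                  · rcases hj with hj | hj
                    · exact hjk hj
                    · exact hij (hi.trans hj.symm)
                · rintro rfl
                  rw [not_and_or, not_not, not_not] at hi hj
                  rcases hi with hi | hi
                  · rcases hj with hj | hj
                    · exact hij (hi.trans hj.symm)
                    · exact hjk hj
                  · exact hik hi
              refine ⟨hnn x, fun l hl hl' => ?_⟩
              by_cases hli : l = k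
              · rw [hli]; exact h0 k hk'.1 hk'.2
              · exact h2 l hl hl' hli
        · have key : ∀ p q, p ≠ q → p ∈ ({i, j, k} : Finset (Fin (N + 1))) →
              q ∈ ({i, j, k} : Finset (Fin (N + 1))) →
              ((∀ l, 0 ≤ c l (f x)) ∧ ∀ l, l ≠ p → l ≠ q → c l (f x) = 0) →
              (∀ l, l ∉ ({i, j, k} : Finset (Fin (N + 1))) → c l (f x) = 0) ∧
                ∃ i j, i ≠ j ∧ ∀ l, l ≠ i → l ≠ j → c l (f x) = 0 := by
            intro p q hpq hp hq h
            refine ⟨fun l hl => h.2 l ?_ ?_, p, q, hpq, h.2⟩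
            · rintro rfl; exact hl hp
            · rintro rfl; exact hl hq
          rintro ((h | h) | h)
          · exact key i j hij (by simp) (by simp) h
          · exact key j k hjk (by simp) (by simp) h
          · exact key k i hik.symm (by simp) (by simp) h
      rw [h1]
      apply pre_conn hemb
      · apply IsPreconnected.union (a k)
        · exact Or.inr (right_mem_segment ℝ _ _)
        · exact left_mem_segment ℝ _ _
        · apply IsPreconnected.union (a j)
          · exact right_mem_segment ℝ _ _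
          · exact left_mem_segment ℝ _ _
          · exact (convex_segment _ _).isPreconnected
          · exact (convex_segment _ _).isPreconnected
        · exact (convex_segment _ _).isPreconnected
      · refine Subset.trans ?_ (hsub _ ht)
        have h3 : ∀ p q, p ∈ ({i, j, k} : Finset (Fin (N + 1))) →
            q ∈ ({i, j, k} : Finset (Fin (N + 1))) → segment ℝ (a p) (a q) ⊆
            convexHull ℝ (a '' (({i, j, k} : Finset (Fin (N + 1))) : Set (Fin (N + 1)))) := by
          intro p q hp hq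
          rw [hseg]
          apply convexHull_mono
          apply image_mono
          rintro l (rfl | rfl)
          · exact hp
          · exact hq
        apply union_subset (union_subset (h3 i j (by simp) (by simp)) (h3 j k (by simp) (by simp)))
          (h3 k i (by simp) (by simp))
    · obtain ⟨i, j, l, hij, hil, hjl, rfl⟩ := Finset.card_eq_three.1 (hcard t ht)
      have h1 : Subtype.val '' {k : EdgeT f | Γ.Adj (f ⁻¹' OF c {i, j, l}) k} ⊆
          ({segment ℝ (a i) (a j), segment ℝ (a j) (a l), segment ℝ (a l) (a i)} :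
            Set (Set (EuclideanSpace ℝ (Fin N)))) := by
        rintro _ ⟨k, ⟨x, hx1, hx2⟩, rfl⟩
        obtain ⟨p, q, hpq, hs, h0, h1⟩ := hk k
        obtain ⟨e1, e2, e3⟩ := hopn k p q hpq hs h0 h1 x hx2
        rw [hclm _ ht] at hx1
        have hp : p ∈ ({i, j, l} : Finset (Fin (N + 1))) := by
          by_contra hcon
          exact e1 (hx1 p hcon)
        have hq : q ∈ ({i, j, l} : Finset (Fin (N + 1))) := by
          by_contra hcon
          exact e2 (hx1 q hcon)
        rw [Finset.mem_insert, Finset.mem_insert, Finset.mem_singleton] at hp hq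
        rw [hs, mem_insert_iff, mem_insert_iff, mem_singleton_iff]
        rcases hp with rfl | rfl | rfl <;> rcases hq with rfl | rfl | rfl
        · exact absurd rfl hpq
        · exact Or.inl rfl
        · exact Or.inr (Or.inr (segment_symm ℝ _ _))
        · exact Or.inl (segment_symm ℝ _ _)
        · exact absurd rfl hpq
        · exact Or.inr (Or.inl rfl)
        · exact Or.inr (Or.inr rfl)
        · exact Or.inr (Or.inl (segment_symm ℝ _ _))
        · exact absurd rfl hpq
      have hfin : ({segment ℝ (a i) (a j), segment ℝ (a j) (a l), segment ℝ (a l) (a i)} :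
            Set (Set (EuclideanSpace ℝ (Fin N)))).Finite := by
        simp
      refine ⟨(hfin.subset h1).of_finite_image Subtype.val_injective.injOn, ?_⟩
      have h2 := Set.ncard_image_of_injective
        {k : EdgeT f | Γ.Adj (f ⁻¹' OF c {i, j, l}) k} (f := fun k : EdgeT f => k.1)
        Subtype.val_injective
      rw [← h2]
      refine (Set.ncard_le_ncard h1 hfin).trans ?_
      refine (Set.ncard_insert_le _ _).trans (Nat.succ_le_succ ?_)
      refine (Set.ncard_insert_le _ _).trans (Nat.succ_le_succ ?_)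
      rw [Set.ncard_singleton]
  · intro k
    obtain ⟨p, q, hpq, hs, h0, h1⟩ := hk k
    have hE := hEdge p q hpq
    obtain ⟨m, hm⟩ := edge_surj S.cont S.conn hE
      (q := (1 / 2 : ℝ) • a p + (1 / 2 : ℝ) • a q) ⟨1 / 2, 1 / 2, by norm_num, by norm_num,
        by norm_num, rfl⟩
    have hmc : ∀ l, c l (f m) = (1 / 2) * (if l = p then 1 else 0) +
        (1 / 2) * (if l = q then 1 else 0) := by
      intro l
      rw [hm, aff_comb _ _ _ _ _ (by norm_num), c1, c1]
    have hmp : c p (f m) = 1 / 2 := by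
      rw [hmc, if_pos rfl, if_neg hpq]; norm_num
    have hmq : c q (f m) = 1 / 2 := by
      rw [hmc, if_pos rfl, if_neg hpq.symm]; norm_num
    have hml : ∀ l, l ≠ p → l ≠ q → c l (f m) = 0 := by
      intro l h h'
      rw [hmc, if_neg h, if_neg h']; norm_num
    have hmA : m ∈ Γ.A k := by
      rw [hΓ.hA k, mem_setOf_eq, hs, hsegm]
      exact ⟨hnn m, hml⟩
    have hm0 : m ≠ Γ.p0 k := by
      intro h
      have h2 := hmq
      rw [h, h0, c1, if_neg hpq.symm] at h2
      norm_num at h2
    have hm1 : m ≠ Γ.p1 k := by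
      intro h
      have h2 := hmp
      rw [h, h1, c1, if_neg hpq] at h2
      norm_num at h2
    have hmo : m ∈ Γ.opn k := by
      refine ⟨hmA, ?_⟩
      rintro (h | h)
      · exact hm0 h
      · exact hm1 h
    obtain ⟨t0, ht0, _, hmt0⟩ := hmem m
    have hpt : ∀ t : Finset (Fin (N + 1)), (∀ i, i ∉ t → c i (f m) = 0) → p ∈ t ∧ q ∈ t := by
      intro t h
      constructor
      · by_contra hcon
        have h2 := h p hcon
        rw [hmp] at h2
        norm_num at h2
      · by_contra hcon
        have h2 := h q hcon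
        rw [hmq] at h2
        norm_num at h2
    have hpt' : ∀ t : Finset (Fin (N + 1)), p ∈ t → q ∈ t → ∀ i, i ∉ t → c i (f m) = 0 := by
      intro t h h' i hi
      apply hml
      · rintro rfl; exact hi h
      · rintro rfl; exact hi h'
    obtain ⟨hp0, hq0⟩ := hpt t0 hmt0
    by_contra hcon
    have hone : ∀ t ∈ T, p ∈ t → q ∈ t → t = t0 := by
      intro t ht hp hq
      by_contra hne
      apply hcon
      refine ⟨f ⁻¹' OF c t, ?_, f ⁻¹' OF c t0, ?_, ?_, ?_, ?_⟩
      · rw [hcomps]; exact ⟨t, ht, rfl⟩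
      · rw [hcomps]; exact ⟨t0, ht0, rfl⟩
      · intro heq
        obtain ⟨y, hy⟩ := hUne t ht
        obtain ⟨x, rfl⟩ := hUr t ht hy
        have hx : x ∈ f ⁻¹' OF c t0 := by
          rw [← heq]; exact hy
        exact hne (huniq x t ht t0 ht0 hy.1 hx.2)
      · exact ⟨m, (hclm t ht m).2 (hpt' t hp hq), hmo⟩
      · exact ⟨m, (hclm t0 ht0 m).2 hmt0, hmo⟩
    -- the third vertex
    obtain ⟨l, hlp, hlq, hl0, ht0e⟩ : ∃ l, l ≠ p ∧ l ≠ q ∧ l ∈ t0 ∧ ∀ i ∈ t0, i ≠ p → i ≠ q → i = l := by
      have h2 : ((t0.erase p).erase q).card = 1 := by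
        rw [Finset.card_erase_of_mem (Finset.mem_erase.2 ⟨hpq.symm, hq0⟩),
          Finset.card_erase_of_mem hp0, hcard t0 ht0]
      obtain ⟨l, hl⟩ := Finset.card_eq_one.1 h2
      have h3 : l ∈ (t0.erase p).erase q := by rw [hl]; exact Finset.mem_singleton_self l
      rw [Finset.mem_erase, Finset.mem_erase] at h3
      refine ⟨l, h3.2.1, h3.1, h3.2.2, fun i hi hip hiq => ?_⟩
      have h4 : i ∈ (t0.erase p).erase q := by
        rw [Finset.mem_erase, Finset.mem_erase]
        exact ⟨hiq, hip, hi⟩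
      rw [hl] at h4
      exact Finset.mem_singleton.1 h4
    -- a small chart
    obtain ⟨D, ψ, φ, hmD, _, hch, hDW⟩ := small_int (S.pt m)
      (W := {Γ.p0 k}ᶜ ∩ {Γ.p1 k}ᶜ) (Filter.inter_mem (isOpen_compl_singleton.mem_nhds hm0)
        (isOpen_compl_singleton.mem_nhds hm1))
    have hD0 : Γ.p0 k ∉ D := fun h => (hDW h).1 rfl
    have hD1 : Γ.p1 k ∉ D := fun h => (hDW h).2 rfl
    have hDn : D ∈ 𝓝 m := hch.isOpen.mem_nhds hmD
    rw [hemb.isInducing.nhds_eq_comap, Filter.mem_comap] at hDn
    obtain ⟨V, hV, hVD⟩ := hDn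
    have hO : IsOpen (⋂ t ∈ {t | t ∈ T ∧ t ≠ t0}, (convexHull ℝ (a '' (t : Set (Fin (N + 1)))))ᶜ) := by
      apply Set.Finite.isOpen_biInter (Set.toFinite _)
      intro t _
      exact (Set.Finite.isCompact_convexHull ℝ ((Set.toFinite _).image a)).isClosed.isOpen_compl
    have hmO : f m ∈ (⋂ t ∈ {t | t ∈ T ∧ t ≠ t0},
        (convexHull ℝ (a '' (t : Set (Fin (N + 1)))))ᶜ) := by
      rw [mem_iInter₂]
      rintro t ⟨ht, hne⟩ hmt
      rw [c3] at hmt
      obtain ⟨h2, h3⟩ := hpt t hmt.2
      exact hne (hone t ht h2 h3)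
    obtain ⟨ε, hε, hball⟩ := Metric.mem_nhds_iff.1 (Filter.inter_mem hV (hO.mem_nhds hmO))
    refine hL M N f S (Γ.A k) (Γ.p0 k) (Γ.p1 k) m D ψ φ (hΓ.good.arc k) hmA hm0 hm1 hch hD0 hD1
      (f ⁻¹' ball (f m) ε) (isOpen_ball.preimage S.cont) ?_ (mem_ball_self hε) ?_
    · intro x hx
      exact hVD (hball hx).1
    · have heq : f ⁻¹' ball (f m) ε \ Γ.A k =
          f ⁻¹' (ball (f m) ε ∩ (convexHull ℝ (a '' (t0 : Set (Fin (N + 1)))) ∩
            (c l ⁻¹' Ioi (0 : ℝ)))) := by
        ext x
        rw [mem_sdiff, mem_preimage, mem_preimage, mem_inter_iff, mem_inter_iff]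
        refine and_congr_right fun hx => ?_
        have hxt0 : ∀ i, i ∉ t0 → c i (f x) = 0 := by
          obtain ⟨t, ht, h2, h3⟩ := hmem x
          by_cases htt : t = t0
          · rw [← htt]; exact h3
          · exfalso
            have h4 := mem_iInter₂.1 (hball hx).2 t ⟨ht, htt⟩
            apply h4
            rw [c3]
            exact ⟨h2, h3⟩
        rw [hΓ.hA k, mem_setOf_eq, hs, hsegm, c3]
        constructor
        · intro h
          refine ⟨⟨hnn x, hxt0⟩, ?_⟩
          rcases (hnn x l).eq_or_lt with h2 | h2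
          · exfalso
            apply h
            refine ⟨hnn x, fun i hip hiq => ?_⟩
            by_cases hi : i ∈ t0
            · rw [ht0e i hi hip hiq, ← h2]
            · exact hxt0 i hi
          · exact h2
        · rintro ⟨_, h2⟩ ⟨_, h3⟩
          have h4 : (0 : ℝ) < c l (f x) := h2
          rw [h3 l hlp hlq] at h4
          exact lt_irrefl _ h4
      rw [heq]
      apply pre_conn hemb
      · exact ((convex_ball _ _).inter ((convex_convexHull ℝ _).inter
          ((convex_Ioi (0 : ℝ)).affine_preimage (c l)))).isPreconnected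
      · exact (inter_subset_right.trans inter_subset_left).trans (hsub t0 ht0)

end Pool.Agent.Y954.PB
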